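import Pool.Agent.Lib.MP_17d4d1_pr.Families

set_option autoImplicit false

/-!
# Reduction to indicator functions and log-supermodular functions (MP_17d4d1_pr)
-/

namespace Pool.Agent.Lib.MP_17d4d1_pr

open Finset

/-- Layer cake: a linear functional that is nonnegative on the indicators of the upper level sets
of a nonnegative function is nonnegative on that function. -/
theorem layer {α : Type*} [Fintype α] (W : α → ℝ) (n : ℕ) :
    ∀ f : α → ℝ, (∀ x, 0 ≤ f x) → ((univ.image f).erase 0).card = n →
      (∀ s : ℝ, 0 < s → 0 ≤ ∑ x, (if s ≤ f x then (1 : ℝ) else 0) * W x) →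
      0 ≤ ∑ x, f x * W x := by
  induction n with
  | zero =>
    intro f _ hcard _
    have h0 : ∀ x, f x = 0 := by
      intro x
      by_contra hx
      have : f x ∈ (univ.image f).erase 0 := mem_erase.2 ⟨hx, mem_image_of_mem f (mem_univ x)⟩
      rw [card_eq_zero] at hcard
      rw [hcard] at this
      exact absurd this (notMem_empty _)
    simp [h0]
  | succ n ih =>
    intro f hf hcard hlev
    set V := (univ.image f).erase 0 with hV
    have hVne : V.Nonempty := card_pos.1 (by omega)
    set m := V.max' hVne with hm
    have hmV : m ∈ V := V.max'_mem hVne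
    have hVpos : ∀ v ∈ V, 0 < v := by
      intro v hv
      obtain ⟨hv0, hv⟩ := mem_erase.1 hv
      obtain ⟨x, -, rfl⟩ := mem_image.1 hv
      exact lt_of_le_of_ne (hf x) (Ne.symm hv0)
    have hmpos : 0 < m := hVpos m hmV
    obtain ⟨m', hm'0, hm'm, hm'V, hm'le⟩ : ∃ m' : ℝ, 0 ≤ m' ∧ m' < m ∧
        (m' ≠ 0 → m' ∈ V.erase m) ∧ ∀ v ∈ V.erase m, v ≤ m' := by
      by_cases hne : (V.erase m).Nonempty
      · refine ⟨(V.erase m).max' hne, ?_, ?_, fun _ => (V.erase m).max'_mem hne,
          fun v hv => (V.erase m).le_max' v hv⟩
        · exact (hVpos _ (mem_of_mem_erase ((V.erase m).max'_mem hne))).le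
        · obtain ⟨h1, h2⟩ := mem_erase.1 ((V.erase m).max'_mem hne)
          exact lt_of_le_of_ne (V.le_max' _ h2) h1
      · rw [not_nonempty_iff_eq_empty] at hne
        refine ⟨0, le_rfl, hmpos, fun h => absurd rfl h, fun v hv => ?_⟩
        rw [hne] at hv
        exact absurd hv (notMem_empty v)
    have hfm : ∀ x, f x ≠ m → f x ≤ m' := by
      intro x hx
      by_cases h0 : f x = 0
      · rw [h0]; exact hm'0
      · exact hm'le _ (mem_erase.2 ⟨hx, mem_erase.2 ⟨h0, mem_image_of_mem f (mem_univ x)⟩⟩)
    have hfle : ∀ x, f x ≤ m := by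
      intro x
      by_cases hx : f x = m
      · exact hx.le
      · exact (hfm x hx).trans hm'm.le
    have hdec : ∀ x, f x = min (f x) m' + (m - m') * (if m ≤ f x then (1 : ℝ) else 0) := by
      intro x
      by_cases hx : f x = m
      · rw [hx, min_eq_right hm'm.le, if_pos le_rfl]; ring
      · have h1 := hfm x hx
        have h2 : ¬ m ≤ f x := fun h => hx (le_antisymm (hfle x) h)
        rw [min_eq_left h1, if_neg h2]; ring
    have himg : (univ.image fun x => min (f x) m').erase 0 = V.erase m := by
      ext v
      rw [mem_erase, mem_image]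
      constructor
      · rintro ⟨hv0, x, -, rfl⟩
        by_cases hx : f x = m
        · simp only [hx, min_eq_right hm'm.le] at hv0 ⊢
          exact hm'V hv0
        · have h1 := hfm x hx
          simp only [min_eq_left h1] at hv0 ⊢
          exact mem_erase.2 ⟨hx, mem_erase.2 ⟨hv0, mem_image_of_mem f (mem_univ x)⟩⟩
      · intro hv
        obtain ⟨h1, h2⟩ := mem_erase.1 hv
        obtain ⟨h3, h4⟩ := mem_erase.1 h2
        obtain ⟨x, -, rfl⟩ := mem_image.1 h4
        exact ⟨h3, x, mem_univ x, min_eq_left (hm'le _ hv)⟩
    have h1 : 0 ≤ ∑ x, min (f x) m' * W x := by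
      refine ih (fun x => min (f x) m') (fun x => le_min (hf x) hm'0) ?_ ?_
      · rw [himg, card_erase_of_mem hmV, hcard]
        rfl
      · intro s hs
        by_cases hsm : s ≤ m'
        · have : ∀ x, (s ≤ min (f x) m') = (s ≤ f x) := fun x => by
            rw [le_min_iff, eq_iff_iff]
            exact ⟨fun h => h.1, fun h => ⟨h, hsm⟩⟩
          simp only [this]
          exact hlev s hs
        · have : ∀ x, ¬ s ≤ min (f x) m' := fun x h => hsm (h.trans (min_le_right _ _))
          simp [this]
    have h2 := hlev m hmpos
    have h3 : ∑ x, f x * W x = ∑ x, min (f x) m' * W x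
        + (m - m') * ∑ x, (if m ≤ f x then (1 : ℝ) else 0) * W x := by
      rw [mul_sum, ← sum_add_distrib]
      refine sum_congr rfl fun x _ => ?_
      conv_lhs => rw [hdec x]
      ring
    rw [h3]
    have h4 : 0 ≤ m - m' := by linarith
    positivity

variable {ι : Type*} [DecidableEq ι] [Fintype ι] {α : Type*} [Fintype α] [DistribLattice α]

/-- The nonnegative nondecreasing log-supermodular functions. -/
def goodSet (α : Type*) [DistribLattice α] : Set (α → ℝ) :=
  {h | (∀ x, 0 ≤ h x) ∧ Monotone h ∧ ∀ x y, h x * h y ≤ h (x ⊓ y) * h (x ⊔ y)}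

omit [Fintype α] in
theorem nonneg_of_closure {h : α → ℝ} (hh : h ∈ AddSubmonoid.closure (goodSet α)) :
    (∀ x, 0 ≤ h x) ∧ Monotone h := by
  induction hh using AddSubmonoid.closure_induction with
  | mem u hu => exact ⟨hu.1, hu.2.1⟩
  | zero => exact ⟨fun _ => le_rfl, fun _ _ _ => le_rfl⟩
  | add u v _ _ h1 h2 =>
    exact ⟨fun x => add_nonneg (h1.1 x) (h2.1 x), fun x y hxy => add_le_add (h1.2 hxy) (h2.2 hxy)⟩

/-- **Main theorem**, in terms of `En`. -/
theorem main (I J K : Set ι) (hIJ : ∀ i, i ∉ K → i ∈ I ∨ i ∈ J) [Nonempty ι]
    {w : α → ℝ} (hw0 : ∀ x, 0 ≤ w x) (hw1 : ∑ x, w x = 1) (hw : LSM w) (T : Finset ι) :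
    ∀ F : ι → α → ℝ, (∀ i x, 0 ≤ F i x) → (∀ i, Monotone (F i)) →
      (∀ i, i ∉ K → i ∈ I → ∀ j, j ∉ K → j ∈ I → ∀ x y, 0 ≤ (F i x - F i y) * (F j x - F j y)) →
      (∀ i, i ∉ K → i ∈ J → ∀ j, j ∉ K → j ∈ J → ∀ x y, 0 ≤ (F i x - F i y) * (F j x - F j y)) →
      (∀ k ∈ K, F k ∈ AddSubmonoid.closure (goodSet α)) →
      (∀ i, i ∉ T → i ∉ K → ∀ x, F i x = 0 ∨ F i x = 1) →
      (∀ i, i ∉ T → i ∈ K → LSM (F i)) →
      0 ≤ En w F univ := by
  classical
  induction T using Finset.induction_on with
  | empty =>
    intro F hF0 hmono hI hJ hK hg1 hg2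
    have key : ∀ i j, i ∉ K → j ∉ K → (∀ x y, 0 ≤ (F i x - F i y) * (F j x - F j y)) →
        (∀ x, F i x ≤ F j x) ∨ (∀ x, F j x ≤ F i x) := by
      intro i j hi hj hcom
      by_contra hcon
      push Not at hcon
      obtain ⟨⟨x, hx⟩, ⟨y, hy⟩⟩ := hcon
      have h := hcom x y
      have hi1 := hg1 i (notMem_empty i) hi
      have hj1 := hg1 j (notMem_empty j) hj
      rcases hi1 x with a1 | a1 <;> rcases hj1 x with a2 | a2 <;> rcases hi1 y with a3 | a3 <;>
        rcases hj1 y with a4 | a4 <;> rw [a1, a2] at hx <;> rw [a3, a4] at hy <;>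
        rw [a1, a2, a3, a4] at h <;> linarith
    exact two_chains_lsm hF0 I J K (fun i hi x => hg1 i (notMem_empty i) hi x)
      (fun k hk => hg2 k (notMem_empty k) hk) hmono hIJ
      (fun i hi hiI j hj hjI => key i j hi hj (hI i hi hiI j hj hjI))
      (fun i hi hiJ j hj hjJ => key i j hi hj (hJ i hi hiJ j hj hjJ))
      univ w hw0 hw1 hw univ_nonempty
  | insert a T ha ih =>
    intro F hF0 hmono hI hJ hK hg1 hg2
    obtain ⟨W, hW⟩ := En_update w F (mem_univ a)
    have hE : En w F univ = ∑ x, F a x * W x := by
      rw [← hW, Function.update_eq_self]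
    rw [hE]
    by_cases haK : a ∈ K
    · -- a log-supermodular component
      have hcl := hK a haK
      revert hcl
      generalize F a = v
      intro hcl
      induction hcl using AddSubmonoid.closure_induction with
      | mem u hu =>
        rw [← hW]
        refine ih _ ?_ ?_ ?_ ?_ ?_ ?_ ?_
        · intro i x
          by_cases hi : i = a
          · subst hi; rw [Function.update_self]; exact hu.1 x
          · rw [Function.update_of_ne hi]; exact hF0 i x
        · intro i
          by_cases hi : i = a
          · subst hi; rw [Function.update_self]; exact hu.2.1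
          · rw [Function.update_of_ne hi]; exact hmono i
        · intro i hi hiI j hj hjI
          have h1 : i ≠ a := fun h => hi (h ▸ haK)
          have h2 : j ≠ a := fun h => hj (h ▸ haK)
          rw [Function.update_of_ne h1, Function.update_of_ne h2]
          exact hI i hi hiI j hj hjI
        · intro i hi hiI j hj hjI
          have h1 : i ≠ a := fun h => hi (h ▸ haK)
          have h2 : j ≠ a := fun h => hj (h ▸ haK)
          rw [Function.update_of_ne h1, Function.update_of_ne h2]
          exact hJ i hi hiI j hj hjI
        · intro k hk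
          by_cases hi : k = a
          · subst hi; rw [Function.update_self]; exact AddSubmonoid.subset_closure hu
          · rw [Function.update_of_ne hi]; exact hK k hk
        · intro i hiT hi
          have h1 : i ≠ a := fun h => hi (h ▸ haK)
          rw [Function.update_of_ne h1]
          exact hg1 i (fun h => (mem_insert.1 h).elim h1 hiT) hi
        · intro i hiT hi
          by_cases h1 : i = a
          · subst h1; rw [Function.update_self]; exact hu.2.2
          · rw [Function.update_of_ne h1]
            exact hg2 i (fun h => (mem_insert.1 h).elim h1 hiT) hi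
      | zero => simp
      | add u v _ _ h1 h2 =>
        simp only [Pi.add_apply, add_mul, sum_add_distrib]
        exact add_nonneg h1 h2
    · -- an indicator of a level set
      refine layer W _ (F a) (hF0 a) rfl fun s hs => ?_
      rw [← hW]
      have hcom : ∀ j, (∀ x y, 0 ≤ (F a x - F a y) * (F j x - F j y)) → ∀ x y,
          0 ≤ ((if s ≤ F a x then (1 : ℝ) else 0) - (if s ≤ F a y then (1 : ℝ) else 0))
            * (F j x - F j y) := by
        intro j hj x y
        have h := hj x y
        by_cases h1 : s ≤ F a x <;> by_cases h2 : s ≤ F a y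
        · simp [h1, h2]
        · rw [if_pos h1, if_neg h2, sub_zero, one_mul]
          have h3 : 0 < F a x - F a y := by linarith [not_le.1 h2]
          exact nonneg_of_mul_nonneg_right h h3
        · rw [if_neg h1, if_pos h2]
          have h3 : 0 < F a y - F a x := by linarith [not_le.1 h1]
          have h4 : 0 ≤ F j y - F j x :=
            nonneg_of_mul_nonneg_right (by linarith : 0 ≤ (F a y - F a x) * (F j y - F j x)) h3
          linarith
        · simp [h1, h2]
      have hpair : ∀ L : Set ι,
          (∀ i, i ∉ K → i ∈ L → ∀ j, j ∉ K → j ∈ L → ∀ x y,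
            0 ≤ (F i x - F i y) * (F j x - F j y)) →
          (∀ i, i ∉ K → i ∈ L → ∀ j, j ∉ K → j ∈ L → ∀ x y,
            0 ≤ (Function.update F a (fun x => if s ≤ F a x then (1 : ℝ) else 0) i x
                - Function.update F a (fun x => if s ≤ F a x then (1 : ℝ) else 0) i y)
              * (Function.update F a (fun x => if s ≤ F a x then (1 : ℝ) else 0) j x
                - Function.update F a (fun x => if s ≤ F a x then (1 : ℝ) else 0) j y)) := by
        intro L hL i hi hiL j hj hjL x y
        by_cases h1 : i = a <;> by_cases h2 : j = a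
        · subst h1; subst h2; exact mul_self_nonneg _
        · subst h1
          rw [Function.update_self, Function.update_of_ne h2]
          exact hcom j (hL i hi hiL j hj hjL) x y
        · subst h2
          rw [Function.update_self, Function.update_of_ne h1, mul_comm]
          exact hcom i (hL j hj hjL i hi hiL) x y
        · rw [Function.update_of_ne h1, Function.update_of_ne h2]
          exact hL i hi hiL j hj hjL x y
      refine ih _ ?_ ?_ (hpair I hI) (hpair J hJ) ?_ ?_ ?_
      · intro i x
        by_cases hi : i = a
        · subst hi; rw [Function.update_self]; split_ifs <;> norm_num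
        · rw [Function.update_of_ne hi]; exact hF0 i x
      · intro i
        by_cases hi : i = a
        · subst hi
          rw [Function.update_self]
          intro x y hxy
          by_cases h1 : s ≤ F i x
          · have h2 : s ≤ F i y := h1.trans (hmono i hxy)
            simp [h1, h2]
          · simp only [if_neg h1]
            split_ifs <;> norm_num
        · rw [Function.update_of_ne hi]; exact hmono i
      · intro k hk
        have h1 : k ≠ a := fun h => haK (h ▸ hk)
        rw [Function.update_of_ne h1]
        exact hK k hk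
      · intro i hiT hi x
        by_cases h1 : i = a
        · subst h1
          rw [Function.update_self]
          by_cases h2 : s ≤ F i x
          · right; simp [h2]
          · left; simp [h2]
        · rw [Function.update_of_ne h1]
          exact hg1 i (fun h => (mem_insert.1 h).elim h1 hiT) hi x
      · intro i hiT hi
        have h1 : i ≠ a := fun h => haK (h ▸ hi)
        rw [Function.update_of_ne h1]
        exact hg2 i (fun h => (mem_insert.1 h).elim h1 hiT) hi

end Pool.Agent.Lib.MP_17d4d1_pr
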