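import Pool.Agent.Lib.MP_17d4d1_pr.Key

set_option autoImplicit false

/-!
# Chains of events, two chains, log-supermodular functions (MP_17d4d1_pr)
-/

namespace Pool.Agent.Lib.MP_17d4d1_pr

open Finset

variable {ι : Type*} [DecidableEq ι]

section chain

variable {α : Type*} [Fintype α]

omit [DecidableEq ι] in
theorem prod_le_one_of {F : ι → α → ℝ} (hF : ∀ i x, F i x = 0 ∨ F i x = 1) (T : Finset ι) (x : α) :
    ∏ i ∈ T, F i x ≤ 1 := by
  refine prod_le_one (fun i _ => ?_) (fun i _ => ?_)
  · rcases hF i x with h | h <;> rw [h]; norm_num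
  · rcases hF i x with h | h <;> rw [h]; norm_num

/-- Indicator functions that are nested on the support of the weights. -/
theorem chain {F : ι → α → ℝ} (hF : ∀ i x, F i x = 0 ∨ F i x = 1) (S : Finset ι) :
    ∀ w : α → ℝ, (∀ x, 0 ≤ w x) → ∑ x, w x = 1 → S.Nonempty →
      (∀ i ∈ S, ∀ j ∈ S, (∀ x, w x ≠ 0 → F i x ≤ F j x) ∨ (∀ x, w x ≠ 0 → F j x ≤ F i x)) →
      0 ≤ En w F S := by
  induction S using Finset.strongInduction with
  | H S ih =>
    intro w hw hw1 hS hnest
    have hF0 : ∀ i x, 0 ≤ F i x := fun i x => by rcases hF i x with h | h <;> rw [h]; norm_num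
    obtain ⟨a, haS, hmin⟩ := S.exists_min_image (fun i => ∑ x, w x * F i x) hS
    obtain ⟨S', ha, rfl⟩ : ∃ S', a ∉ S' ∧ insert a S' = S :=
      ⟨S.erase a, notMem_erase a S, insert_erase haS⟩
    -- `F a` is smallest on the support
    have hle : ∀ j ∈ insert a S', ∀ x, w x ≠ 0 → F a x ≤ F j x := by
      intro j hj
      rcases hnest a haS j hj with h | h
      · exact h
      · -- then both agree on the support
        have hs : ∑ x, w x * F j x = ∑ x, w x * F a x := by
          refine le_antisymm (sum_le_sum fun x _ => ?_) (hmin j hj)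
          by_cases hx : w x = 0
          · simp [hx]
          · exact mul_le_mul_of_nonneg_left (h x hx) (hw x)
        have hz : ∑ x, (w x * F a x - w x * F j x) = 0 := by
          rw [sum_sub_distrib, hs, sub_self]
        intro x hx
        have := (sum_eq_zero_iff_of_nonneg (fun y _ => by
          by_cases hy : w y = 0
          · simp [hy]
          · have := mul_le_mul_of_nonneg_left (h y hy) (hw y)
            linarith)).1 hz x (mem_univ x)
        have h2 : w x * (F a x - F j x) = 0 := by linarith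
        rcases mul_eq_zero.1 h2 with h3 | h3
        · exact absurd h3 hx
        · linarith
    have hsupp : ∀ x, tilt w (F a) x ≠ 0 → w x ≠ 0 ∧ F a x = 1 := by
      intro x hx
      refine ⟨fun h => hx (by simp [tilt, h]), ?_⟩
      rcases hF a x with h | h
      · exact absurd (by simp [tilt, h]) hx
      · exact h
    refine tilting ha hw hF0 ?_ ?_
    · intro hc T hT _
      have hone : mom (tilt w (F a)) F T = 1 := by
        rw [← tilt_sum hc, mom]
        refine sum_congr rfl fun x _ => ?_
        by_cases hx : tilt w (F a) x = 0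
        · simp [hx]
        · obtain ⟨hwx, hax⟩ := hsupp x hx
          have : ∏ i ∈ T, F i x = 1 := by
            refine prod_eq_one fun i hi => ?_
            have := hle i (mem_insert_of_mem (hT hi)) x hwx
            rcases hF i x with h | h
            · rw [h, hax] at this; norm_num at this
            · exact h
          rw [this, mul_one]
      rw [hone, ← hw1]
      refine sum_le_sum fun x _ => ?_
      have := mul_le_mul_of_nonneg_left (prod_le_one_of hF T x) (hw x)
      linarith
    · intro hc U hU hcard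
      have hUss : U ⊂ insert a S' := Finset.ssubset_of_subset_of_ssubset hU (ssubset_insert ha)
      refine ih U hUss _ (tilt_nonneg hw (hF0 a)) (tilt_sum hc) ?_ ?_
      · exact card_pos.1 (by omega)
      · intro i hi j hj
        rcases hnest i (mem_insert_of_mem (hU hi)) j (mem_insert_of_mem (hU hj)) with h | h
        · exact Or.inl fun x hx => h x (hsupp x hx).1
        · exact Or.inr fun x hx => h x (hsupp x hx).1

end chain

section lattice

variable {α : Type*} [Fintype α] [DistribLattice α]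

/-- The FKG lattice condition for the weights `w`. -/
def LSM (w : α → ℝ) : Prop := ∀ x y, w x * w y ≤ w (x ⊓ y) * w (x ⊔ y)

theorem LSM.tilt {w u : α → ℝ} (hw0 : ∀ x, 0 ≤ w x) (hu0 : ∀ x, 0 ≤ u x) (hw : LSM w)
    (hu : LSM u) : LSM (tilt w u) := by
  intro x y
  unfold Pool.Agent.Lib.MP_17d4d1_pr.tilt
  rw [div_mul_div_comm, div_mul_div_comm]
  refine div_le_div_of_nonneg_right ?_ (mul_self_nonneg _)
  calc w x * u x * (w y * u y) = (w x * w y) * (u x * u y) := by ring
    _ ≤ (w (x ⊓ y) * w (x ⊔ y)) * (u (x ⊓ y) * u (x ⊔ y)) :=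
        mul_le_mul (hw x y) (hu x y) (mul_nonneg (hu0 x) (hu0 y))
          (mul_nonneg (hw0 _) (hw0 _))
    _ = _ := by ring

omit [Fintype α] in
theorem prod_mono {F : ι → α → ℝ} (hF0 : ∀ i x, 0 ≤ F i x) (T : Finset ι)
    (hF : ∀ i ∈ T, Monotone (F i)) : Monotone fun x => ∏ i ∈ T, F i x := by
  intro x y hxy
  exact prod_le_prod (fun i _ => hF0 i x) (fun i hi => hF i hi hxy)

/-- Tilting by a monotone function increases the moments of monotone functions. -/
theorem mom_le_tilt {w : α → ℝ} (hw0 : ∀ x, 0 ≤ w x) (hw1 : ∑ x, w x = 1) (hw : LSM w)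
    {F : ι → α → ℝ} (hF0 : ∀ i x, 0 ≤ F i x) {a : ι} (ha : Monotone (F a)) {T : Finset ι}
    (hT : ∀ i ∈ T, Monotone (F i)) (hc : ∑ y, w y * F a y ≠ 0) :
    mom w F T ≤ mom (tilt w (F a)) F T := by
  have h := fkg (μ := w) (f := F a) (g := fun x => ∏ i ∈ T, F i x) hw0 (hF0 a)
    (fun x => prod_nonneg fun i _ => hF0 i x) ha (prod_mono hF0 T hT) hw
  rw [hw1, one_mul] at h
  have hcpos : 0 < ∑ y, w y * F a y :=
    lt_of_le_of_ne (sum_nonneg fun y _ => mul_nonneg (hw0 y) (hF0 a y)) (Ne.symm hc)
  have h2 : mom (tilt w (F a)) F T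
      = (∑ x, w x * (F a x * ∏ i ∈ T, F i x)) / ∑ y, w y * F a y := by
    rw [mom, sum_div]
    refine sum_congr rfl fun x _ => ?_
    simp only [tilt]
    ring
  rw [h2, le_div_iff₀ hcpos, mom, mul_comm]
  exact h

/-- Two chains of up-sets. -/
theorem two_chains {F : ι → α → ℝ} (hF : ∀ i x, F i x = 0 ∨ F i x = 1) {S : Finset ι}
    (hS : S.Nonempty) (hmono : ∀ i ∈ S, Monotone (F i)) (I J : Set ι)
    (hIJ : ∀ i ∈ S, i ∈ I ∨ i ∈ J)
    (hI : ∀ i ∈ S, i ∈ I → ∀ j ∈ S, j ∈ I → (∀ x, F i x ≤ F j x) ∨ (∀ x, F j x ≤ F i x))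
    (hJ : ∀ i ∈ S, i ∈ J → ∀ j ∈ S, j ∈ J → (∀ x, F i x ≤ F j x) ∨ (∀ x, F j x ≤ F i x))
    {w : α → ℝ} (hw0 : ∀ x, 0 ≤ w x) (hw1 : ∑ x, w x = 1) (hw : LSM w) :
    0 ≤ En w F S := by
  classical
  have hF0 : ∀ i x, 0 ≤ F i x := fun i x => by rcases hF i x with h | h <;> rw [h]; norm_num
  by_cases hSI : ∃ i ∈ S, i ∈ I
  · have hne : (S.filter (· ∈ I)).Nonempty := by
      obtain ⟨i, hi, hiI⟩ := hSI
      exact ⟨i, mem_filter.2 ⟨hi, hiI⟩⟩
    obtain ⟨a, haSI, hmin⟩ := (S.filter (· ∈ I)).exists_min_image (fun i => ∑ x, w x * F i x) hne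
    obtain ⟨haS, haI⟩ := mem_filter.1 haSI
    obtain ⟨S', ha, rfl⟩ : ∃ S', a ∉ S' ∧ insert a S' = S :=
      ⟨S.erase a, notMem_erase a S, insert_erase haS⟩
    have hle : ∀ j ∈ insert a S', j ∈ I → ∀ x, w x ≠ 0 → F a x ≤ F j x := by
      intro j hj hjI
      rcases hI a haS haI j hj hjI with h | h
      · exact fun x _ => h x
      · have hs : ∑ x, w x * F j x = ∑ x, w x * F a x :=
          le_antisymm (sum_le_sum fun x _ => mul_le_mul_of_nonneg_left (h x) (hw0 x))
            (hmin j (mem_filter.2 ⟨hj, hjI⟩))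
        have hz : ∑ x, (w x * F a x - w x * F j x) = 0 := by
          rw [sum_sub_distrib, hs, sub_self]
        intro x hx
        have := (sum_eq_zero_iff_of_nonneg (fun y _ => by
          have := mul_le_mul_of_nonneg_left (h y) (hw0 y)
          linarith)).1 hz x (mem_univ x)
        have h2 : w x * (F a x - F j x) = 0 := by linarith
        rcases mul_eq_zero.1 h2 with h3 | h3
        · exact absurd h3 hx
        · linarith
    have hsupp : ∀ x, tilt w (F a) x ≠ 0 → w x ≠ 0 ∧ F a x = 1 := by
      intro x hx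
      refine ⟨fun h => hx (by simp [tilt, h]), ?_⟩
      rcases hF a x with h | h
      · exact absurd (by simp [tilt, h]) hx
      · exact h
    have hone : ∀ j ∈ insert a S', j ∈ I → ∀ x, tilt w (F a) x ≠ 0 → F j x = 1 := by
      intro j hj hjI x hx
      obtain ⟨hwx, hax⟩ := hsupp x hx
      have := hle j hj hjI x hwx
      rcases hF j x with h | h
      · rw [h, hax] at this; norm_num at this
      · exact h
    have hle1 : ∀ j x, F j x ≤ 1 := fun j x => by rcases hF j x with h | h <;> rw [h]; norm_num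
    refine tilting ha hw0 hF0 ?_ ?_
    · intro hc T hT _
      exact mom_le_tilt hw0 hw1 hw hF0 (hmono a haS)
        (fun i hi => hmono i (mem_insert_of_mem (hT hi))) hc
    · intro hc U hU hcard
      refine chain hF U _ (tilt_nonneg hw0 (hF0 a)) (tilt_sum hc)
        (card_pos.1 (by omega)) ?_
      intro i hi j hj
      have hi' := mem_insert_of_mem (a := i) (b := a) (hU hi)
      have hj' := mem_insert_of_mem (a := j) (b := a) (hU hj)
      by_cases hiI : i ∈ I
      · exact Or.inr fun x hx => by rw [hone i hi' hiI x hx]; exact hle1 j x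
      · by_cases hjI : j ∈ I
        · exact Or.inl fun x hx => by rw [hone j hj' hjI x hx]; exact hle1 i x
        · rcases hJ i hi' ((hIJ i hi').resolve_left hiI) j hj'
            ((hIJ j hj').resolve_left hjI) with h | h
          · exact Or.inl fun x _ => h x
          · exact Or.inr fun x _ => h x
  · push Not at hSI
    refine chain hF S w hw0 hw1 hS fun i hi j hj => ?_
    rcases hJ i hi ((hIJ i hi).resolve_left (hSI i hi)) j hj
      ((hIJ j hj).resolve_left (hSI j hj)) with h | h
    · exact Or.inl fun x _ => h x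
    · exact Or.inr fun x _ => h x

/-- Two chains of up-sets and log-supermodular functions. -/
theorem two_chains_lsm {F : ι → α → ℝ} (hF0 : ∀ i x, 0 ≤ F i x) (I J K : Set ι)
    (hFI : ∀ i, i ∉ K → ∀ x, F i x = 0 ∨ F i x = 1) (hFK : ∀ k ∈ K, LSM (F k))
    (hmono : ∀ i, Monotone (F i)) (hIJ : ∀ i, i ∉ K → i ∈ I ∨ i ∈ J)
    (hI : ∀ i, i ∉ K → i ∈ I → ∀ j, j ∉ K → j ∈ I → (∀ x, F i x ≤ F j x) ∨ (∀ x, F j x ≤ F i x))
    (hJ : ∀ i, i ∉ K → i ∈ J → ∀ j, j ∉ K → j ∈ J → (∀ x, F i x ≤ F j x) ∨ (∀ x, F j x ≤ F i x))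
    (S : Finset ι) :
    ∀ w : α → ℝ, (∀ x, 0 ≤ w x) → ∑ x, w x = 1 → LSM w → S.Nonempty → 0 ≤ En w F S := by
  classical
  induction S using Finset.strongInduction with
  | H S ih =>
    intro w hw0 hw1 hw hS
    by_cases hSK : ∃ k ∈ S, k ∈ K
    · obtain ⟨a, haS, haK⟩ := hSK
      obtain ⟨S', ha, rfl⟩ : ∃ S', a ∉ S' ∧ insert a S' = S :=
        ⟨S.erase a, notMem_erase a S, insert_erase haS⟩
      refine tilting ha hw0 hF0 ?_ ?_
      · intro hc T hT _
        exact mom_le_tilt hw0 hw1 hw hF0 (hmono a) (fun i _ => hmono i) hc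
      · intro hc U hU hcard
        exact ih U (Finset.ssubset_of_subset_of_ssubset hU (ssubset_insert ha)) _
          (tilt_nonneg hw0 (hF0 a)) (tilt_sum hc) (hw.tilt hw0 (hF0 a) (hFK a haK))
          (card_pos.1 (by omega))
    · push Not at hSK
      -- restrict to functions outside `K`
      set F' : ι → α → ℝ := fun i => if i ∈ K then 0 else F i with hF'
      have hcongr : En w F S = En w F' S := by
        rw [En, En]
        congr 1
        refine G_congr fun T hT _ => ?_
        simp only [hh, mom]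
        congr 2
        refine sum_congr rfl fun x _ => ?_
        congr 1
        refine prod_congr rfl fun i hi => ?_
        simp only [hF', if_neg (hSK i (hT hi))]
      rw [hcongr]
      refine two_chains (F := F') ?_ hS ?_ I J (fun i hi => hIJ i (hSK i hi)) ?_ ?_ hw0 hw1 hw
      · intro i x
        by_cases hi : i ∈ K
        · left; simp [hF', hi]
        · simp only [hF', if_neg hi]; exact hFI i hi x
      · intro i hi
        simp only [hF', if_neg (hSK i hi)]
        exact hmono i
      · intro i hi hiI j hj hjI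
        simp only [hF', if_neg (hSK i hi), if_neg (hSK j hj)]
        exact hI i (hSK i hi) hiI j (hSK j hj) hjI
      · intro i hi hiI j hj hjI
        simp only [hF', if_neg (hSK i hi), if_neg (hSK j hj)]
        exact hJ i (hSK i hi) hiI j (hSK j hj) hjI

end lattice

end Pool.Agent.Lib.MP_17d4d1_pr
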