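import Pool.Agent.Lib.MP_17d4d1_pr.SetAlg

set_option autoImplicit false

/-!
# The tilting lemma (MP_17d4d1_pr)

`En w F S` is the functional of the problem for the weights `w` and the functions `F i`, `i ∈ S`.
The tilting lemma reduces its nonnegativity to that for smaller sets under a tilted measure.
-/

namespace Pool.Agent.Lib.MP_17d4d1_pr

open Finset

variable {ι : Type*} [DecidableEq ι] {α : Type*} [Fintype α]

/-- The moment of the product of the `F i`, `i ∈ S`, for the weights `w`. -/
def mom (w : α → ℝ) (F : ι → α → ℝ) (S : Finset ι) : ℝ := ∑ x, w x * ∏ i ∈ S, F i x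

/-- The weight of a block. -/
noncomputable def hh (w : α → ℝ) (F : ι → α → ℝ) (B : Finset ι) : ℝ :=
  -(((B.card - 1).factorial : ℝ) * mom w F B)

/-- The functional of the problem, for the functions `F i`, `i ∈ S`. -/
noncomputable def En (w : α → ℝ) (F : ι → α → ℝ) (S : Finset ι) : ℝ := -G (hh w F) S

omit [DecidableEq ι] in
theorem mom_empty (w : α → ℝ) (F : ι → α → ℝ) : mom w F ∅ = ∑ x, w x := by
  simp [mom]

omit [DecidableEq ι] in
theorem mom_nonneg {w : α → ℝ} {F : ι → α → ℝ} (hw : ∀ x, 0 ≤ w x) (hF : ∀ i x, 0 ≤ F i x)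
    (S : Finset ι) : 0 ≤ mom w F S :=
  sum_nonneg fun x _ => mul_nonneg (hw x) (prod_nonneg fun i _ => hF i x)

/-- The measure with density proportional to `u`. -/
noncomputable def tilt (w u : α → ℝ) (x : α) : ℝ := w x * u x / ∑ y, w y * u y

theorem tilt_nonneg {w u : α → ℝ} (hw : ∀ x, 0 ≤ w x) (hu : ∀ x, 0 ≤ u x) (x : α) :
    0 ≤ tilt w u x :=
  div_nonneg (mul_nonneg (hw x) (hu x)) (sum_nonneg fun y _ => mul_nonneg (hw y) (hu y))

theorem tilt_sum {w u : α → ℝ} (h : ∑ y, w y * u y ≠ 0) : ∑ x, tilt w u x = 1 := by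
  simp only [tilt]
  rw [← sum_div, div_self h]

theorem mom_insert_eq {w : α → ℝ} {F : ι → α → ℝ} {a : ι} {T : Finset ι} (ha : a ∉ T)
    (hc : ∑ y, w y * F a y ≠ 0) :
    mom w F (insert a T) = (∑ y, w y * F a y) * mom (tilt w (F a)) F T := by
  simp only [mom, tilt]
  rw [mul_sum]
  refine sum_congr rfl fun x _ => ?_
  rw [prod_insert ha]
  field_simp

theorem conv_delta (v : Finset ι → ℝ) (S : Finset ι) :
    conv (fun T => if T = ∅ then 1 else 0) v S = v S := by
  unfold conv
  rw [sum_eq_single ∅]
  · simp
  · intro T _ hT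
    simp [hT]
  · intro h
    exact absurd (empty_mem_powerset S) h

theorem conv_smul_left (c : ℝ) (u v : Finset ι → ℝ) (S : Finset ι) :
    conv (fun T => c * u T) v S = c * conv u v S := by
  unfold conv
  rw [mul_sum]
  exact sum_congr rfl fun T _ => by ring

/-- **Tilting identity.** -/
theorem conv_R {w : α → ℝ} (F : ι → α → ℝ) (hw : ∑ x, w x = 1) (U : Finset ι) :
    conv (fun T => (T.card.factorial : ℝ) * mom w F T) (G (hh w F)) U
      = (1 - (U.card : ℝ)) * G (hh w F) U := by
  have h1 : ∀ T : Finset ι, (T.card.factorial : ℝ) * mom w F T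
      = (if T = ∅ then 1 else 0) + (-1) * ((T.card : ℝ) * hh w F T) := by
    intro T
    by_cases hT : T = ∅
    · subst hT
      simp [mom_empty, hw]
    · rw [if_neg hT]
      have hc : T.card ≠ 0 := fun h => hT (card_eq_zero.1 h)
      rw [hh, ← Nat.mul_factorial_pred hc]
      push_cast
      ring
  have h2 : conv (fun T => (T.card.factorial : ℝ) * mom w F T) (G (hh w F)) U
      = conv (fun T => (if T = ∅ then 1 else 0) + (-1) * ((T.card : ℝ) * hh w F T))
          (G (hh w F)) U := conv_congr (fun T _ => h1 T) (fun _ _ => rfl)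
  rw [h2, conv_add_left, conv_delta, conv_smul_left, ← euler_G]
  ring

/-- **Tilting lemma.** Let `a ∉ S` and let `ν` be `w` tilted by `F a`. If tilting increases the
moments of the subsets of `S` and the functional is nonnegative under `ν` for the subsets of `S`
with at least two elements, then it is nonnegative under `w` for `insert a S`. -/
theorem tilting {w : α → ℝ} {F : ι → α → ℝ} {a : ι} {S : Finset ι} (ha : a ∉ S)
    (hw : ∀ x, 0 ≤ w x) (hF : ∀ i x, 0 ≤ F i x)
    (h1 : ∑ y, w y * F a y ≠ 0 → ∀ T ⊆ S, T.Nonempty → mom w F T ≤ mom (tilt w (F a)) F T)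
    (h2 : ∑ y, w y * F a y ≠ 0 → ∀ U ⊆ S, 2 ≤ U.card → 0 ≤ En (tilt w (F a)) F U) :
    0 ≤ En w F (insert a S) := by
  rw [En, G_insert _ ha]
  by_cases hc : ∑ y, w y * F a y = 0
  · -- the degenerate case
    have hz : ∀ x, w x * F a x = 0 := fun x =>
      (sum_eq_zero_iff_of_nonneg fun y _ => mul_nonneg (hw y) (hF a y)).1 hc x (mem_univ x)
    have : conv (der a (hh w F)) (G (hh w F)) S = 0 := by
      unfold conv
      refine sum_eq_zero fun T hT => ?_
      have haT : a ∉ T := fun h => ha (mem_powerset.1 hT h)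
      have : mom w F (insert a T) = 0 := by
        unfold mom
        refine sum_eq_zero fun x _ => ?_
        rw [prod_insert haT, ← mul_assoc, hz x, zero_mul]
      rw [der, hh, this]
      ring
    rw [this, neg_zero]
  · set c := ∑ y, w y * F a y with hcdef
    have hcpos : 0 < c :=
      lt_of_le_of_ne (sum_nonneg fun y _ => mul_nonneg (hw y) (hF a y)) (Ne.symm hc)
    set ν := tilt w (F a) with hν
    have hνsum : ∑ x, ν x = 1 := tilt_sum hc
    have hd : conv (der a (hh w F)) (G (hh w F)) S
        = conv (fun T => (-c) * ((T.card.factorial : ℝ) * mom ν F T)) (G (hh w F)) S := by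
      refine conv_congr (fun T hT => ?_) (fun _ _ => rfl)
      have haT : a ∉ T := fun h => ha (hT h)
      rw [der, hh, card_insert_of_notMem haT, mom_insert_eq haT hc, Nat.add_sub_cancel]
      ring
    rw [hd, conv_smul_left]
    have hk : G (hh w F) = G (fun T => hh ν F T + (hh w F T - hh ν F T)) := by
      congr 1
      funext T
      ring
    have he : conv (fun T => (T.card.factorial : ℝ) * mom ν F T) (G (hh w F)) S
        = conv (fun U => (1 - (U.card : ℝ)) * G (hh ν F) U)
            (G fun T => hh w F T - hh ν F T) S := by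
      rw [hk]
      have e1 : conv (fun T => (T.card.factorial : ℝ) * mom ν F T)
          (G (fun T => hh ν F T + (hh w F T - hh ν F T))) S
          = conv (fun T => (T.card.factorial : ℝ) * mom ν F T)
            (conv (G (hh ν F)) (G fun T => hh w F T - hh ν F T)) S :=
        conv_congr (fun _ _ => rfl) (fun T _ => G_add _ _ T)
      rw [e1, ← conv_assoc]
      exact conv_congr (fun U _ => conv_R F hνsum U) (fun _ _ => rfl)
    rw [he]
    have hpos : 0 ≤ conv (fun U => (1 - (U.card : ℝ)) * G (hh ν F) U)
            (G fun T => hh w F T - hh ν F T) S := by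
      unfold conv
      refine sum_nonneg fun U hU => mul_nonneg ?_ ?_
      · rw [mem_powerset] at hU
        rcases Nat.lt_or_ge U.card 2 with hlt | hge
        · interval_cases hcard : U.card
          · rw [card_eq_zero] at hcard
            subst hcard
            simp [G_empty]
          · simp [hcard]
        · have h3 := h2 hc U hU hge
          rw [En] at h3
          have h4 : (2 : ℝ) ≤ U.card := by exact_mod_cast hge
          nlinarith
      · refine G_nonneg fun T hT hTne => ?_
        have h3 := h1 hc T (hT.trans sdiff_subset) hTne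
        simp only [hh]
        have h4 : (0 : ℝ) ≤ ((T.card - 1).factorial : ℝ) := Nat.cast_nonneg _
        nlinarith
    nlinarith

/-- The functional is an integral against a fixed weight, as a function of one of the `F a`. -/
theorem En_update (w : α → ℝ) (F : ι → α → ℝ) {a : ι} {S : Finset ι} (ha : a ∈ S) :
    ∃ W : α → ℝ, ∀ u : α → ℝ, En w (Function.update F a u) S = ∑ x, u x * W x := by
  obtain ⟨S', ha', rfl⟩ : ∃ S', a ∉ S' ∧ insert a S' = S :=
    ⟨S.erase a, notMem_erase a S, insert_erase ha⟩
  refine ⟨fun x => ∑ T ∈ S'.powerset, ((T.card.factorial : ℝ) * (w x * ∏ i ∈ T, F i x))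
    * G (hh w F) (S' \ T), fun u => ?_⟩
  rw [En, G_insert _ ha', conv, ← sum_neg_distrib]
  simp only [mul_sum]
  rw [sum_comm]
  refine sum_congr rfl fun T hT => ?_
  have haT : a ∉ T := fun h => ha' (mem_powerset.1 hT h)
  have hne : ∀ i ∈ T, i ≠ a := fun i hi h => haT (h ▸ hi)
  have h1 : G (hh w (Function.update F a u)) (S' \ T) = G (hh w F) (S' \ T) := by
    refine G_congr fun B hB _ => ?_
    simp only [hh, mom]
    congr 2
    refine sum_congr rfl fun x _ => ?_
    congr 1
    refine prod_congr rfl fun i hi => ?_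
    rw [Function.update_of_ne]
    rintro rfl
    exact ha' (mem_sdiff.1 (hB hi)).1
  rw [h1, der, hh, card_insert_of_notMem haT, Nat.add_sub_cancel, mom, mul_sum, neg_mul,
    neg_neg, sum_mul]
  refine sum_congr rfl fun x _ => ?_
  rw [prod_insert haT, Function.update_self]
  have h2 : ∏ i ∈ T, Function.update F a u i x = ∏ i ∈ T, F i x :=
    prod_congr rfl fun i hi => by rw [Function.update_of_ne (hne i hi)]
  rw [h2]
  ring

end Pool.Agent.Lib.MP_17d4d1_pr
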