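import Pool.Agent.Lib.MP_17d4d1_pr.Families

set_option autoImplicit false

/-!
# Pairs of weights in Holley position (MP_17d4d1_pr)

Two probability weights `μ`, `ν` on a finite distributive lattice are in Holley position if
`μ x * ν y ≤ μ (x ⊓ y) * ν (x ⊔ y)`. For such pairs on a Boolean lattice we prove the inequality
`0 ≤ BB`, by induction on the number of coordinates.
-/

namespace Pool.Agent.Lib.MP_17d4d1_pr

open Finset

section gen

variable {α : Type*} [Fintype α]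

/-- The expectation of `u` for the weights `w`. -/
def Ex (w u : α → ℝ) : ℝ := ∑ x, w x * u x

theorem Ex_nonneg {w u : α → ℝ} (hw : ∀ x, 0 ≤ w x) (hu : ∀ x, 0 ≤ u x) : 0 ≤ Ex w u :=
  sum_nonneg fun x _ => mul_nonneg (hw x) (hu x)

theorem Ex_add (w u v : α → ℝ) : Ex w (u + v) = Ex w u + Ex w v := by
  simp only [Ex, Pi.add_apply, mul_add, sum_add_distrib]

theorem Ex_smul (w u : α → ℝ) (r : ℝ) : Ex w (fun x => r * u x) = r * Ex w u := by
  simp only [Ex, mul_sum]
  exact sum_congr rfl fun x _ => by ring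

theorem Ex_const {w : α → ℝ} (hw : ∑ x, w x = 1) (r : ℝ) : Ex w (fun _ => r) = r := by
  simp only [Ex, ← sum_mul, hw, one_mul]

/-- Two functions that agree where the weights do not vanish have the same expectation. -/
theorem Ex_congr {w u v : α → ℝ} (h : ∀ x, w x ≠ 0 → u x = v x) : Ex w u = Ex w v := by
  refine sum_congr rfl fun x _ => ?_
  by_cases hx : w x = 0
  · simp [hx]
  · rw [h x hx]

/-- The expectation under the tilted weights. -/
theorem mul_Ex_tilt {w k : α → ℝ} (hw : ∀ x, 0 ≤ w x) (hk : ∀ x, 0 ≤ k x) (u : α → ℝ) :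
    Ex w k * Ex (tilt w k) u = Ex w (k * u) := by
  by_cases hc : Ex w k = 0
  · have hz : ∀ x, w x * k x = 0 := fun x =>
      (sum_eq_zero_iff_of_nonneg fun y _ => mul_nonneg (hw y) (hk y)).1 hc x (mem_univ x)
    rw [hc, zero_mul, Ex]
    refine (sum_eq_zero fun x _ => ?_).symm
    rw [Pi.mul_apply, ← mul_assoc, hz x, zero_mul]
  · simp only [Ex, tilt] at hc ⊢
    rw [mul_sum]
    refine sum_congr rfl fun x _ => ?_
    rw [Pi.mul_apply]
    field_simp

end gen

section lat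

variable {α : Type*} [Fintype α] [DistribLattice α]

/-- Holley position. -/
def Hol (w v : α → ℝ) : Prop := ∀ x y, w x * v y ≤ w (x ⊓ y) * v (x ⊔ y)

theorem Hol.tilt {w v u u' : α → ℝ} (hw : ∀ x, 0 ≤ w x) (hv : ∀ x, 0 ≤ v x)
    (hu : ∀ x, 0 ≤ u x) (hu' : ∀ x, 0 ≤ u' x) (h : Hol w v) (h' : Hol u u') :
    Hol (tilt w u) (tilt v u') := by
  intro x y
  unfold Pool.Agent.Lib.MP_17d4d1_pr.tilt
  rw [div_mul_div_comm, div_mul_div_comm]
  refine div_le_div_of_nonneg_right ?_ (mul_nonneg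
    (sum_nonneg fun y _ => mul_nonneg (hw y) (hu y))
    (sum_nonneg fun y _ => mul_nonneg (hv y) (hu' y)))
  calc w x * u x * (v y * u' y) = (w x * v y) * (u x * u' y) := by ring
    _ ≤ (w (x ⊓ y) * v (x ⊔ y)) * (u (x ⊓ y) * u' (x ⊔ y)) :=
        mul_le_mul (h x y) (h' x y) (mul_nonneg (hu x) (hu' y))
          (mul_nonneg (hw _) (hv _))
    _ = _ := by ring

/-- Holley's inequality. -/
theorem Ex_le {w v : α → ℝ} (hw : ∀ x, 0 ≤ w x) (hv : ∀ x, 0 ≤ v x) (hw1 : ∑ x, w x = 1)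
    (hv1 : ∑ x, v x = 1) (h : Hol w v) {f : α → ℝ} (hf0 : ∀ x, 0 ≤ f x) (hf : Monotone f) :
    Ex w f ≤ Ex v f := by
  have := holley (μ := f) (f := w) (g := v) hf0 hw hv hf (by rw [hw1, hv1]) h
  simpa only [Ex, mul_comm] using this

/-- The FKG inequality. -/
theorem Ex_fkg {w : α → ℝ} (hw : ∀ x, 0 ≤ w x) (hw1 : ∑ x, w x = 1) (h : Hol w w)
    {f g : α → ℝ} (hf0 : ∀ x, 0 ≤ f x) (hf : Monotone f) (hg0 : ∀ x, 0 ≤ g x)
    (hg : Monotone g) : Ex w f * Ex w g ≤ Ex w (f * g) := by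
  have := fkg (μ := w) (f := f) (g := g) hw hf0 hg0 hf hg h
  rw [hw1, one_mul] at this
  exact this

omit [Fintype α] in
theorem mono_mul {f g : α → ℝ} (hf0 : ∀ x, 0 ≤ f x) (hf : Monotone f) (hg0 : ∀ x, 0 ≤ g x)
    (hg : Monotone g) : Monotone (f * g) := fun x y hxy =>
  mul_le_mul (hf hxy) (hg hxy) (hg0 x) (hf0 y)

end lat

section cube

variable {X : Type*} [Fintype X] [DecidableEq X]

/-- The indicator of the sets that contain `s`. -/
def inn (s : X) (A : Finset X) : ℝ := if s ∈ A then 1 else 0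

/-- The indicator of the sets that do not contain `s`. -/
def out (s : X) (A : Finset X) : ℝ := if s ∈ A then 0 else 1

omit [Fintype X] in
theorem inn_nonneg (s : X) (A : Finset X) : 0 ≤ inn s A := by
  unfold inn; split_ifs <;> norm_num

omit [Fintype X] in
theorem out_nonneg (s : X) (A : Finset X) : 0 ≤ out s A := by
  unfold out; split_ifs <;> norm_num

omit [Fintype X] in
theorem hol_out_out (s : X) : ∀ A B : Finset X, out s A * out s B ≤ out s (A ⊓ B) * out s (A ⊔ B) := by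
  intro A B
  by_cases hA : s ∈ A <;> by_cases hB : s ∈ B <;> simp [out, hA, hB]

omit [Fintype X] in
theorem hol_out_inn (s : X) : ∀ A B : Finset X, out s A * inn s B ≤ out s (A ⊓ B) * inn s (A ⊔ B) := by
  intro A B
  by_cases hA : s ∈ A <;> by_cases hB : s ∈ B <;> simp [out, inn, hA, hB]

omit [Fintype X] in
theorem hol_inn_inn (s : X) : ∀ A B : Finset X, inn s A * inn s B ≤ inn s (A ⊓ B) * inn s (A ⊔ B) := by
  intro A B
  by_cases hA : s ∈ A <;> by_cases hB : s ∈ B <;> simp [inn, hA, hB]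

theorem Ex_out {w : Finset X → ℝ} (hw1 : ∑ x, w x = 1) (s : X) :
    Ex w (out s) = 1 - Ex w (inn s) := by
  have : ∑ x, w x = Ex w (out s) + Ex w (inn s) := by
    rw [Ex, Ex, ← sum_add_distrib]
    refine sum_congr rfl fun A _ => ?_
    by_cases hA : s ∈ A <;> simp [out, inn, hA]
  linarith

/-- Conditioning on a coordinate. -/
theorem Ex_split {w : Finset X → ℝ} (hw : ∀ x, 0 ≤ w x) (hw1 : ∑ x, w x = 1) (s : X)
    (u : Finset X → ℝ) :
    Ex w u = (1 - Ex w (inn s)) * Ex (tilt w (out s)) u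
      + Ex w (inn s) * Ex (tilt w (inn s)) u := by
  rw [← Ex_out hw1 s, mul_Ex_tilt hw (out_nonneg s), mul_Ex_tilt hw (inn_nonneg s), Ex, Ex, Ex,
    ← sum_add_distrib]
  refine sum_congr rfl fun A _ => ?_
  by_cases hA : s ∈ A <;> simp [out, inn, hA]

/-- The functional of the pair lemma. -/
def BB (μ ν f g h : Finset X → ℝ) (r : ℝ) : ℝ :=
  r * (Ex ν (f * g) - Ex μ (f * g)) + 2 * Ex μ (f * g * h) - Ex ν f * Ex μ (g * h)
    - Ex ν g * Ex μ (f * h)

/-- **Pair lemma.** -/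
theorem BB_nonneg {f g h : Finset X → ℝ} (hf0 : ∀ x, 0 ≤ f x) (hf : Monotone f)
    (hg0 : ∀ x, 0 ≤ g x) (hg : Monotone g) (hh0 : ∀ x, 0 ≤ h x) (hh : Monotone h) {r : ℝ}
    (hr : ∀ x, h x ≤ r) (S : Finset X) :
    ∀ μ ν : Finset X → ℝ, (∀ x, 0 ≤ μ x) → (∀ x, 0 ≤ ν x) → ∑ x, μ x = 1 → ∑ x, ν x = 1 →
      Hol μ μ → Hol ν ν → Hol μ ν → ∀ c d : Finset X, (∀ A, μ A ≠ 0 → A \ S = c) →
      (∀ A, ν A ≠ 0 → A \ S = d) → 0 ≤ BB μ ν f g h r := by
  induction S using Finset.induction_on with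
  | empty =>
    intro μ ν hμ hν hμ1 hν1 _ _ hμν c d hc hd
    simp only [sdiff_empty] at hc hd
    have e1 : ∀ u : Finset X → ℝ, Ex μ u = u c := fun u => by
      rw [Ex_congr (v := fun _ => u c) fun A hA => by rw [hc A hA], Ex_const hμ1]
    have e2 : ∀ u : Finset X → ℝ, Ex ν u = u d := fun u => by
      rw [Ex_congr (v := fun _ => u d) fun A hA => by rw [hd A hA], Ex_const hν1]
    have h1 : μ c = 1 := by
      rw [← hμ1]
      refine (sum_eq_single c (fun A _ hA => ?_) (fun h => absurd (mem_univ c) h)).symm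
      by_contra h2
      exact hA (hc A h2)
    have h2 : ν d = 1 := by
      rw [← hν1]
      refine (sum_eq_single d (fun A _ hA => ?_) (fun h => absurd (mem_univ d) h)).symm
      by_contra h2
      exact hA (hd A h2)
    have hcd : c ≤ d := by
      have h3 := hμν c d
      rw [h1, h2, mul_one] at h3
      have h4 : μ (c ⊓ d) ≠ 0 := fun h => by rw [h, zero_mul] at h3; linarith
      have h5 := hc _ h4
      rw [← h5]
      exact inf_le_right
    have hfc := hf hcd
    have hgc := hg hcd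
    simp only [BB, e1, e2, Pi.mul_apply]
    have key : r * (f d * g d - f c * g c) + 2 * (f c * g c * h c) - f d * (g c * h c)
        - g d * (f c * h c) = (r - h c) * (f d * g d - f c * g c)
          + h c * ((f d - f c) * (g d - g c)) := by ring
    rw [key]
    have h6 : f c * g c ≤ f d * g d := mul_le_mul hfc hgc (hg0 c) (hf0 d)
    have h7 := hr c
    have h8 := hh0 c
    exact add_nonneg (mul_nonneg (by linarith) (by linarith))
      (mul_nonneg h8 (mul_nonneg (by linarith) (by linarith)))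
  | insert s S hs ih =>
    intro μ ν hμ hν hμ1 hν1 hμμ hνν hμν c d hc hd
    set p0 := Ex μ (inn s) with hp0
    set p1 := Ex ν (inn s) with hp1
    have hinn : Monotone (inn s) := by
      intro A B hAB
      unfold inn
      by_cases hA : s ∈ A
      · simp [hA, hAB hA]
      · rw [if_neg hA]; split_ifs <;> norm_num
    have hp01 : p0 ≤ p1 := Ex_le hμ hν hμ1 hν1 hμν (inn_nonneg s) hinn
    have hp0n : 0 ≤ p0 := Ex_nonneg hμ (inn_nonneg s)
    have hq : 1 - p1 = Ex ν (out s) := (Ex_out hν1 s).symm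
    have hq1n : 0 ≤ 1 - p1 := by rw [hq]; exact Ex_nonneg hν (out_nonneg s)
    have hq0 : 1 - p0 = Ex μ (out s) := (Ex_out hμ1 s).symm
    set μ0 := tilt μ (out s)
    set μ1 := tilt μ (inn s)
    set ν0 := tilt ν (out s)
    set ν1 := tilt ν (inn s)
    have sμ0 : 1 - p0 ≠ 0 → ∑ x, μ0 x = 1 := fun h => tilt_sum (by rw [hq0] at h; exact h)
    have sμ1 : p0 ≠ 0 → ∑ x, μ1 x = 1 := fun h => tilt_sum h
    have sν0 : 1 - p1 ≠ 0 → ∑ x, ν0 x = 1 := fun h => tilt_sum (by rw [hq] at h; exact h)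
    have sν1 : p1 ≠ 0 → ∑ x, ν1 x = 1 := fun h => tilt_sum h
    have nμ0 : ∀ x, 0 ≤ μ0 x := tilt_nonneg hμ (out_nonneg s)
    have nμ1 : ∀ x, 0 ≤ μ1 x := tilt_nonneg hμ (inn_nonneg s)
    have nν0 : ∀ x, 0 ≤ ν0 x := tilt_nonneg hν (out_nonneg s)
    have nν1 : ∀ x, 0 ≤ ν1 x := tilt_nonneg hν (inn_nonneg s)
    -- supports
    have suppo : ∀ (w : Finset X → ℝ) (e : Finset X), (∀ A, w A ≠ 0 → A \ insert s S = e) →
        ∀ A, tilt w (out s) A ≠ 0 → A \ S = e := by
      intro w e he A hA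
      have h1 : w A ≠ 0 := fun h => hA (by simp [tilt, h])
      have h2 : s ∉ A := fun h => hA (by simp [tilt, out, h])
      rw [← he A h1]
      ext x
      simp only [mem_sdiff, mem_insert, not_or]
      constructor
      · rintro ⟨h3, h4⟩
        exact ⟨h3, fun h => h2 (h ▸ h3), h4⟩
      · rintro ⟨h3, _, h4⟩
        exact ⟨h3, h4⟩
    have suppi : ∀ (w : Finset X → ℝ) (e : Finset X), (∀ A, w A ≠ 0 → A \ insert s S = e) →
        ∀ A, tilt w (inn s) A ≠ 0 → A \ S = insert s e := by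
      intro w e he A hA
      have h1 : w A ≠ 0 := fun h => hA (by simp [tilt, h])
      have h2 : s ∈ A := by
        by_contra h
        exact hA (by simp [tilt, inn, h])
      rw [← he A h1]
      ext x
      simp only [mem_sdiff, mem_insert, not_or]
      constructor
      · rintro ⟨h3, h4⟩
        by_cases hx : x = s
        · exact Or.inl hx
        · exact Or.inr ⟨h3, hx, h4⟩
      · rintro (h3 | ⟨h3, _, h4⟩)
        · subst h3; exact ⟨h2, hs⟩
        · exact ⟨h3, h4⟩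
    -- the three terms
    have t1 : 0 ≤ (1 - p1) * BB μ0 ν0 f g h r := by
      by_cases hz : 1 - p1 = 0
      · rw [hz, zero_mul]
      · have hz0 : 1 - p0 ≠ 0 := by
          have : 0 < 1 - p1 := lt_of_le_of_ne hq1n (Ne.symm hz)
          intro h; linarith
        exact mul_nonneg hq1n (ih μ0 ν0 nμ0 nν0 (sμ0 hz0) (sν0 hz)
          (Hol.tilt hμ hμ (out_nonneg s) (out_nonneg s) hμμ (hol_out_out s))
          (Hol.tilt hν hν (out_nonneg s) (out_nonneg s) hνν (hol_out_out s))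
          (Hol.tilt hμ hν (out_nonneg s) (out_nonneg s) hμν (hol_out_out s))
          c d (suppo μ c hc) (suppo ν d hd))
    have t2 : 0 ≤ (p1 - p0) * BB μ0 ν1 f g h r := by
      by_cases hz : p1 - p0 = 0
      · rw [hz, zero_mul]
      · have hpos : 0 < p1 - p0 := lt_of_le_of_ne (by linarith) (Ne.symm hz)
        have hz0 : 1 - p0 ≠ 0 := by intro h; linarith
        have hz1 : p1 ≠ 0 := by intro h; linarith
        exact mul_nonneg hpos.le (ih μ0 ν1 nμ0 nν1 (sμ0 hz0) (sν1 hz1)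
          (Hol.tilt hμ hμ (out_nonneg s) (out_nonneg s) hμμ (hol_out_out s))
          (Hol.tilt hν hν (inn_nonneg s) (inn_nonneg s) hνν (hol_inn_inn s))
          (Hol.tilt hμ hν (out_nonneg s) (inn_nonneg s) hμν (hol_out_inn s))
          c (insert s d) (suppo μ c hc) (suppi ν d hd))
    have t3 : 0 ≤ p0 * BB μ1 ν1 f g h r := by
      by_cases hz : p0 = 0
      · rw [hz, zero_mul]
      · have hpos : 0 < p0 := lt_of_le_of_ne hp0n (Ne.symm hz)
        have hz1 : p1 ≠ 0 := by intro h; linarith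
        exact mul_nonneg hpos.le (ih μ1 ν1 nμ1 nν1 (sμ1 hz) (sν1 hz1)
          (Hol.tilt hμ hμ (inn_nonneg s) (inn_nonneg s) hμμ (hol_inn_inn s))
          (Hol.tilt hν hν (inn_nonneg s) (inn_nonneg s) hνν (hol_inn_inn s))
          (Hol.tilt hμ hν (inn_nonneg s) (inn_nonneg s) hμν (hol_inn_inn s))
          (insert s c) (insert s d) (suppi μ c hc) (suppi ν d hd))
    -- the Chebyshev terms
    have cheb : ∀ a b : Finset X → ℝ, (∀ x, 0 ≤ a x) → Monotone a → (∀ x, 0 ≤ b x) →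
        Monotone b → 0 ≤ (1 - p1) * p0 * ((Ex ν1 a - Ex ν0 a) * (Ex μ1 b - Ex μ0 b)) := by
      intro a b ha0 ha hb0 hb
      by_cases hz : 1 - p1 = 0
      · simp [hz]
      by_cases hz' : p0 = 0
      · simp [hz']
      have hpos : 0 < p0 := lt_of_le_of_ne hp0n (Ne.symm hz')
      have hpos1 : 0 < 1 - p1 := lt_of_le_of_ne hq1n (Ne.symm hz)
      have hz0 : 1 - p0 ≠ 0 := by intro h; linarith
      have hz1 : p1 ≠ 0 := by intro h; linarith
      have h1 : Ex ν0 a ≤ Ex ν1 a := Ex_le nν0 nν1 (sν0 hz) (sν1 hz1)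
        (Hol.tilt hν hν (out_nonneg s) (inn_nonneg s) hνν (hol_out_inn s)) ha0 ha
      have h2 : Ex μ0 b ≤ Ex μ1 b := Ex_le nμ0 nμ1 (sμ0 hz0) (sμ1 hz')
        (Hol.tilt hμ hμ (out_nonneg s) (inn_nonneg s) hμμ (hol_out_inn s)) hb0 hb
      exact mul_nonneg (mul_nonneg hpos1.le hpos.le)
        (mul_nonneg (by linarith) (by linarith))
    have c1 := cheb f (g * h) hf0 hf (fun x => mul_nonneg (hg0 x) (hh0 x))
      (mono_mul hg0 hg hh0 hh)
    have c2 := cheb g (f * h) hg0 hg (fun x => mul_nonneg (hf0 x) (hh0 x))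
      (mono_mul hf0 hf hh0 hh)
    have key : BB μ ν f g h r = (1 - p1) * BB μ0 ν0 f g h r + (p1 - p0) * BB μ0 ν1 f g h r
        + p0 * BB μ1 ν1 f g h r
        + (1 - p1) * p0 * ((Ex ν1 f - Ex ν0 f) * (Ex μ1 (g * h) - Ex μ0 (g * h)))
        + (1 - p1) * p0 * ((Ex ν1 g - Ex ν0 g) * (Ex μ1 (f * h) - Ex μ0 (f * h))) := by
      simp only [BB]
      rw [Ex_split hν hν1 s (f * g), Ex_split hμ hμ1 s (f * g), Ex_split hμ hμ1 s (f * g * h),
        Ex_split hν hν1 s f, Ex_split hν hν1 s g, Ex_split hμ hμ1 s (g * h),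
        Ex_split hμ hμ1 s (f * h)]
      ring
    rw [key]
    linarith

end cube

end Pool.Agent.Lib.MP_17d4d1_pr
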