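import Mathlib

set_option autoImplicit false

/-!
# Subset convolution and sums over set partitions (MP_17d4d1_pr)

Functions `Finset ι → ℝ` with subset convolution, the sum `G h S` over the set partitions of `S` of
the product of `h` over the blocks, and the identities it satisfies (it is the exponential of `h`
for subset convolution).
-/

namespace Pool.Agent.Lib.MP_17d4d1_pr

open Finset Classical

variable {ι : Type*} [DecidableEq ι]

/-- Subset convolution. -/
def conv (u v : Finset ι → ℝ) (S : Finset ι) : ℝ := ∑ T ∈ S.powerset, u T * v (S \ T)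

/-- The derivative of a set function in the direction `a`. -/
def der (a : ι) (u : Finset ι → ℝ) (S : Finset ι) : ℝ := u (insert a S)

theorem conv_congr {u u' v v' : Finset ι → ℝ} {S : Finset ι} (hu : ∀ T ⊆ S, u T = u' T)
    (hv : ∀ T ⊆ S, v T = v' T) : conv u v S = conv u' v' S := by
  refine sum_congr rfl fun T hT => ?_
  rw [mem_powerset] at hT
  rw [hu T hT, hv _ sdiff_subset]

theorem conv_empty (u v : Finset ι → ℝ) : conv u v ∅ = u ∅ * v ∅ := by
  simp [conv]

theorem conv_add_left (u u' v : Finset ι → ℝ) (S : Finset ι) :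
    conv (fun T => u T + u' T) v S = conv u v S + conv u' v S := by
  simp only [conv, add_mul, sum_add_distrib]

theorem conv_add_right (u v v' : Finset ι → ℝ) (S : Finset ι) :
    conv u (fun T => v T + v' T) S = conv u v S + conv u v' S := by
  simp only [conv, mul_add, sum_add_distrib]

theorem conv_comm (u v : Finset ι → ℝ) (S : Finset ι) : conv u v S = conv v u S := by
  unfold conv
  refine sum_bij' (fun T _ => S \ T) (fun T _ => S \ T) ?_ ?_ ?_ ?_ ?_
  · intro T _; exact mem_powerset.2 sdiff_subset
  · intro T _; exact mem_powerset.2 sdiff_subset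
  · intro T hT; exact Finset.sdiff_sdiff_eq_self (mem_powerset.1 hT)
  · intro T hT; exact Finset.sdiff_sdiff_eq_self (mem_powerset.1 hT)
  · intro T hT
    rw [Finset.sdiff_sdiff_eq_self (mem_powerset.1 hT), mul_comm]

theorem conv_insert (u v : Finset ι → ℝ) {a : ι} {S : Finset ι} (ha : a ∉ S) :
    conv u v (insert a S) = conv (der a u) v S + conv u (der a v) S := by
  unfold conv
  rw [sum_powerset_insert ha, add_comm]
  congr 1
  · refine sum_congr rfl fun T hT => ?_
    have haT : a ∉ T := fun h => ha (mem_powerset.1 hT h)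
    rw [der, insert_sdiff_insert, sdiff_insert_of_notMem ha]
  · refine sum_congr rfl fun T hT => ?_
    have haT : a ∉ T := fun h => ha (mem_powerset.1 hT h)
    rw [der, insert_sdiff_of_notMem _ haT]

theorem conv_assoc (u v w : Finset ι → ℝ) (S : Finset ι) :
    conv (conv u v) w S = conv u (conv v w) S := by
  induction S using Finset.induction_on generalizing u v w with
  | empty => simp [conv_empty, mul_assoc]
  | insert a S ha ih =>
    rw [conv_insert _ _ ha, conv_insert _ _ ha]
    have h1 : conv (der a (conv u v)) w S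
        = conv (fun T => conv (der a u) v T + conv u (der a v) T) w S :=
      conv_congr (fun T hT => conv_insert u v (fun h => ha (hT h))) (fun _ _ => rfl)
    have h2 : conv u (der a (conv v w)) S
        = conv u (fun T => conv (der a v) w T + conv v (der a w) T) S :=
      conv_congr (fun _ _ => rfl) (fun T hT => conv_insert v w (fun h => ha (hT h)))
    rw [h1, h2, conv_add_left, conv_add_right, ih, ih, ih]
    ring

/-- The set partitions of `S`. -/
noncomputable def parts (S : Finset ι) : Finset (Finset (Finset ι)) :=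
  S.powerset.powerset.filter fun P => (∀ B ∈ P, B.Nonempty) ∧ ∀ i ∈ S, ∃! B, B ∈ P ∧ i ∈ B

theorem mem_parts {S : Finset ι} {P : Finset (Finset ι)} :
    P ∈ parts S ↔ (∀ B ∈ P, B ⊆ S) ∧ (∀ B ∈ P, B.Nonempty) ∧
      ∀ i ∈ S, ∃! B, B ∈ P ∧ i ∈ B := by
  unfold parts
  rw [mem_filter, mem_powerset]
  refine and_congr ⟨fun h B hB => mem_powerset.1 (h hB), fun h B hB => mem_powerset.2 (h B hB)⟩
    Iff.rfl

/-- The sum over the set partitions of `S` of the product of `h` over the blocks. -/
noncomputable def G (h : Finset ι → ℝ) (S : Finset ι) : ℝ := ∑ P ∈ parts S, ∏ B ∈ P, h B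

theorem parts_empty : parts (∅ : Finset ι) = {∅} := by
  ext P
  rw [mem_parts, mem_singleton]
  constructor
  · rintro ⟨h1, h2, -⟩
    refine eq_empty_of_forall_notMem fun B hB => ?_
    obtain ⟨x, hx⟩ := h2 B hB
    exact absurd (h1 B hB hx) (notMem_empty x)
  · rintro rfl
    simp

theorem G_empty (h : Finset ι → ℝ) : G h ∅ = 1 := by
  simp [G, parts_empty]

/-- In a set partition two blocks with a common element are equal. -/
theorem parts_eq_of_mem {S : Finset ι} {P : Finset (Finset ι)} (hP : P ∈ parts S)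
    {B B' : Finset ι} (hB : B ∈ P) (hB' : B' ∈ P) {x : ι} (hx : x ∈ B) (hx' : x ∈ B') :
    B = B' := by
  obtain ⟨h1, -, h3⟩ := mem_parts.1 hP
  exact (h3 x (h1 B hB hx)).unique ⟨hB, hx⟩ ⟨hB', hx'⟩

theorem insert_mem_parts {S T : Finset ι} (hTS : T ⊆ S) (hT : T.Nonempty)
    {Q : Finset (Finset ι)} (hQ : Q ∈ parts (S \ T)) :
    T ∉ Q ∧ insert T Q ∈ parts S := by
  obtain ⟨h1, h2, h3⟩ := mem_parts.1 hQ
  have hTQ : T ∉ Q := by
    intro h
    obtain ⟨x, hx⟩ := hT
    exact (mem_sdiff.1 (h1 T h hx)).2 hx
  refine ⟨hTQ, mem_parts.2 ⟨?_, ?_, ?_⟩⟩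
  · intro B hB
    rcases mem_insert.1 hB with rfl | hB
    · exact hTS
    · exact (h1 B hB).trans sdiff_subset
  · intro B hB
    rcases mem_insert.1 hB with rfl | hB
    · exact hT
    · exact h2 B hB
  · intro i hi
    by_cases hiT : i ∈ T
    · refine ⟨T, ⟨mem_insert_self _ _, hiT⟩, ?_⟩
      rintro B ⟨hB, hiB⟩
      rcases mem_insert.1 hB with rfl | hB
      · rfl
      · exact absurd hiT (mem_sdiff.1 (h1 B hB hiB)).2
    · obtain ⟨B, ⟨hB, hiB⟩, hu⟩ := h3 i (mem_sdiff.2 ⟨hi, hiT⟩)
      refine ⟨B, ⟨mem_insert_of_mem hB, hiB⟩, ?_⟩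
      rintro B' ⟨hB', hiB'⟩
      rcases mem_insert.1 hB' with rfl | hB'
      · exact absurd hiB' hiT
      · exact hu B' ⟨hB', hiB'⟩

theorem erase_mem_parts {S T : Finset ι} {P : Finset (Finset ι)} (hP : P ∈ parts S)
    (hT : T ∈ P) : P.erase T ∈ parts (S \ T) := by
  obtain ⟨h1, h2, h3⟩ := mem_parts.1 hP
  refine mem_parts.2 ⟨?_, ?_, ?_⟩
  · intro B hB x hx
    refine mem_sdiff.2 ⟨h1 B (mem_of_mem_erase hB) hx, fun hxT => ?_⟩
    exact (ne_of_mem_erase hB) (parts_eq_of_mem hP (mem_of_mem_erase hB) hT hx hxT)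
  · intro B hB
    exact h2 B (mem_of_mem_erase hB)
  · intro i hi
    obtain ⟨hiS, hiT⟩ := mem_sdiff.1 hi
    obtain ⟨B, ⟨hB, hiB⟩, hu⟩ := h3 i hiS
    refine ⟨B, ⟨mem_erase.2 ⟨?_, hB⟩, hiB⟩, ?_⟩
    · rintro rfl
      exact hiT hiB
    · rintro B' ⟨hB', hiB'⟩
      exact hu B' ⟨mem_of_mem_erase hB', hiB'⟩

/-- Recursion for the sum over set partitions: sum over the block of `a`. -/
theorem G_insert (h : Finset ι → ℝ) {a : ι} {S : Finset ι} (ha : a ∉ S) :
    G h (insert a S) = conv (der a h) (G h) S := by
  unfold G conv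
  simp only [mul_sum]
  rw [sum_sigma']
  symm
  refine sum_bij' (fun x _ => insert (insert a x.1) x.2)
    (fun P _ => if hP : ∃ B, B ∈ P ∧ a ∈ B then
      ⟨hP.choose.erase a, P.erase hP.choose⟩ else ⟨∅, ∅⟩) ?_ ?_ ?_ ?_ ?_
  · rintro ⟨T, Q⟩ hx
    rw [mem_sigma] at hx
    obtain ⟨hT, hQ⟩ := hx
    rw [mem_powerset] at hT
    have hTa : insert a T ⊆ insert a S := insert_subset_insert a hT
    have : S \ T = insert a S \ insert a T := by
      rw [insert_sdiff_insert, sdiff_insert_of_notMem ha]
    simp only at hQ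
    rw [this] at hQ
    exact (insert_mem_parts hTa (insert_nonempty a T) hQ).2
  · intro P hP
    have hex : ∃ B, B ∈ P ∧ a ∈ B :=
      ((mem_parts.1 hP).2.2 a (mem_insert_self a S)).exists
    rw [dif_pos hex]
    have hc := hex.choose_spec
    rw [mem_sigma]
    refine ⟨mem_powerset.2 ?_, ?_⟩
    · intro x hx
      obtain ⟨hxa, hx⟩ := mem_erase.1 hx
      exact (mem_insert.1 ((mem_parts.1 hP).1 _ hc.1 hx)).resolve_left hxa
    · have h := erase_mem_parts hP hc.1
      have h2 : insert a S \ hex.choose = S \ (hex.choose.erase a) := by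
        ext x
        simp only [mem_sdiff, mem_insert, mem_erase, ne_eq]
        constructor
        · rintro ⟨hx | hx, hx'⟩
          · exact absurd (hx ▸ hc.2) hx'
          · exact ⟨hx, fun hh => hx' hh.2⟩
        · rintro ⟨hx, hx'⟩
          refine ⟨Or.inr hx, fun hh => hx' ⟨?_, hh⟩⟩
          rintro rfl
          exact ha hx
      rw [h2] at h
      exact h
  · rintro ⟨T, Q⟩ hx
    rw [mem_sigma] at hx
    obtain ⟨hT, hQ⟩ := hx
    rw [mem_powerset] at hT
    simp only at hQ hT
    have hTa : insert a T ⊆ insert a S := insert_subset_insert a hT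
    have hh : S \ T = insert a S \ insert a T := by
      rw [insert_sdiff_insert, sdiff_insert_of_notMem ha]
    rw [hh] at hQ
    obtain ⟨hn, hP⟩ := insert_mem_parts hTa (insert_nonempty a T) hQ
    have hex : ∃ B, B ∈ insert (insert a T) Q ∧ a ∈ B :=
      ⟨insert a T, mem_insert_self _ _, mem_insert_self _ _⟩
    have hc := hex.choose_spec
    have hce : hex.choose = insert a T :=
      parts_eq_of_mem hP hc.1 (mem_insert_self _ _) hc.2 (mem_insert_self _ _)
    have haT : a ∉ T := fun h => ha (hT h)
    simp only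
    rw [dif_pos hex, hce, erase_insert haT, erase_insert hn]
  · intro P hP
    have hex : ∃ B, B ∈ P ∧ a ∈ B :=
      ((mem_parts.1 hP).2.2 a (mem_insert_self a S)).exists
    have hc := hex.choose_spec
    rw [dif_pos hex]
    simp only
    rw [insert_erase hc.2, insert_erase hc.1]
  · rintro ⟨T, Q⟩ hx
    rw [mem_sigma] at hx
    obtain ⟨hT, hQ⟩ := hx
    rw [mem_powerset] at hT
    simp only at hQ hT
    have hTa : insert a T ⊆ insert a S := insert_subset_insert a hT
    have hh : S \ T = insert a S \ insert a T := by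
      rw [insert_sdiff_insert, sdiff_insert_of_notMem ha]
    rw [hh] at hQ
    obtain ⟨hn, -⟩ := insert_mem_parts hTa (insert_nonempty a T) hQ
    rw [prod_insert hn, der]

/-- `G` turns sums into subset convolutions. -/
theorem G_add (h k : Finset ι → ℝ) (S : Finset ι) :
    G (fun T => h T + k T) S = conv (G h) (G k) S := by
  induction S using Finset.strongInduction with
  | H S ih =>
    rcases S.eq_empty_or_nonempty with rfl | ⟨a, haS⟩
    · simp [conv_empty, G_empty]
    · obtain ⟨S', ha, rfl⟩ : ∃ S', a ∉ S' ∧ insert a S' = S :=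
        ⟨S.erase a, notMem_erase a S, insert_erase haS⟩
      rw [G_insert _ ha, conv_insert _ _ ha]
      have hsub : ∀ T ⊆ S', T ⊂ insert a S' := fun T hT =>
        Finset.ssubset_of_subset_of_ssubset hT (ssubset_insert ha)
      have h1 : conv (der a fun T => h T + k T) (G fun T => h T + k T) S'
          = conv (fun T => der a h T + der a k T) (conv (G h) (G k)) S' :=
        conv_congr (fun _ _ => rfl) (fun T hT => ih T (hsub T hT))
      have h2 : conv (der a (G h)) (G k) S' = conv (conv (der a h) (G h)) (G k) S' :=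
        conv_congr (fun T hT => G_insert h (fun hh => ha (hT hh))) (fun _ _ => rfl)
      have h3 : conv (G h) (der a (G k)) S' = conv (G h) (conv (der a k) (G k)) S' :=
        conv_congr (fun _ _ => rfl) (fun T hT => G_insert k (fun hh => ha (hT hh)))
      rw [h1, h2, h3, conv_add_left, conv_assoc, ← conv_assoc (G h), ← conv_assoc (der a k)]
      congr 1
      exact conv_congr (fun T _ => conv_comm _ _ _) (fun _ _ => rfl)

/-- The Euler operator is a derivation. -/
theorem euler_conv (u v : Finset ι → ℝ) (S : Finset ι) :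
    (S.card : ℝ) * conv u v S
      = conv (fun T => (T.card : ℝ) * u T) v S + conv u (fun T => (T.card : ℝ) * v T) S := by
  unfold conv
  rw [mul_sum, ← sum_add_distrib]
  refine sum_congr rfl fun T hT => ?_
  rw [mem_powerset] at hT
  have : (S.card : ℝ) = T.card + (S \ T).card := by
    rw [← Nat.cast_add, add_comm, card_sdiff_add_card_eq_card hT]
  rw [this]
  ring

/-- Euler's identity for the sum over set partitions. -/
theorem euler_G (h : Finset ι → ℝ) (S : Finset ι) :
    (S.card : ℝ) * G h S = conv (fun T => (T.card : ℝ) * h T) (G h) S := by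
  induction S using Finset.strongInduction with
  | H S ih =>
    rcases S.eq_empty_or_nonempty with rfl | ⟨a, haS⟩
    · simp [conv_empty]
    · obtain ⟨S', ha, rfl⟩ : ∃ S', a ∉ S' ∧ insert a S' = S :=
        ⟨S.erase a, notMem_erase a S, insert_erase haS⟩
      have hsub : ∀ T ⊆ S', T ⊂ insert a S' := fun T hT =>
        Finset.ssubset_of_subset_of_ssubset hT (ssubset_insert ha)
      rw [conv_insert _ _ ha, card_insert_of_notMem ha, G_insert _ ha]
      push_cast
      rw [add_mul, euler_conv, one_mul]
      have h1 : conv (der a h) (fun T => (T.card : ℝ) * G h T) S'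
          = conv (der a h) (conv (fun T => (T.card : ℝ) * h T) (G h)) S' :=
        conv_congr (fun _ _ => rfl) (fun T hT => ih T (hsub T hT))
      have h2 : conv (fun T => (T.card : ℝ) * h T) (der a (G h)) S'
          = conv (fun T => (T.card : ℝ) * h T) (conv (der a h) (G h)) S' :=
        conv_congr (fun _ _ => rfl) (fun T hT => G_insert h (fun hh => ha (hT hh)))
      have h3 : conv (der a fun T => (T.card : ℝ) * h T) (G h) S'
          = conv (fun T => (T.card : ℝ) * der a h T + der a h T) (G h) S' := by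
        refine conv_congr (fun T hT => ?_) (fun _ _ => rfl)
        have haT : a ∉ T := fun hh => ha (hT hh)
        simp only [der]
        rw [card_insert_of_notMem haT]
        push_cast
        ring
      have h4 : conv (der a h) (conv (fun T => (T.card : ℝ) * h T) (G h)) S'
          = conv (fun T => (T.card : ℝ) * h T) (conv (der a h) (G h)) S' := by
        rw [← conv_assoc, ← conv_assoc]
        exact conv_congr (fun T _ => conv_comm _ _ _) (fun _ _ => rfl)
      rw [h1, h2, h3, conv_add_left, h4]
      ring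

theorem G_nonneg {h : Finset ι → ℝ} {S : Finset ι}
    (hh : ∀ T ⊆ S, T.Nonempty → 0 ≤ h T) : 0 ≤ G h S := by
  unfold G
  refine sum_nonneg fun P hP => prod_nonneg fun B hB => ?_
  obtain ⟨h1, h2, -⟩ := mem_parts.1 hP
  exact hh B (h1 B hB) (h2 B hB)

theorem G_congr {h h' : Finset ι → ℝ} {S : Finset ι}
    (hh : ∀ T ⊆ S, T.Nonempty → h T = h' T) : G h S = G h' S := by
  unfold G
  refine sum_congr rfl fun P hP => prod_congr rfl fun B hB => ?_
  obtain ⟨h1, h2, -⟩ := mem_parts.1 hP
  exact hh B (h1 B hB) (h2 B hB)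

end Pool.Agent.Lib.MP_17d4d1_pr
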